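import Pool.Agent.X213.TwoFin

/-!
# Section rings of quotients of weighted complete intersections by sheaves of degree two

Let `R = ℂ[x_1, ..., x_n] / (f_1, ..., f_c)`, where `x_i` has weight `w i > 0` and `f_j` is weighted
homogeneous of degree `δ j ≥ 2`. Let a finite group `G`, abelian or not, act linearly on the
variables, preserving the weights and the span of the `f_j` of each given degree, and let
`S = ⨁ₘ (R_{2m})^G`. Assume that the sheaf `O(2)` of `Proj S` is invertible: at every point `v ≠ 0`
of `Spec R` there are elements of `S` of two consecutive degrees which do not vanish at `v` (this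
holds if `S` is the section ring of an ample invertible sheaf). Then
`2 dim S_1 ≥ ∑ w i - ∑ δ j`, which is `- a(R)` if the `f_j` form a regular sequence.

Idea of the proof. The trace of `g²` on the linear forms of weight one plus twice the difference of
the traces of `g` on the variables and on the equations of degree two is at least
`∑ w i - ∑ δ j`, for every `g`: count the fixed coordinates and equations of `(g, μ)`, `μ² ≠ 1`, and
average over the roots of unity `μ` against `1 - Re μ²`. The average over `G` is then compared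
with the invariant quadratic forms (Frobenius-Schur indicator).
-/

set_option autoImplicit false

namespace Pool.Agent.Results.MP_954e53_ag.DegreeTwoInvariants

open MvPolynomial

/-- The degree `d` part of the ring of invariants `R^G`, where
`R = ℂ[x_1, ..., x_n] / (f_1, ..., f_c)` is graded by the weights `w`. -/
noncomputable def invPart {n c : ℕ} (w : Fin n → ℕ) (f : Fin c → MvPolynomial (Fin n) ℂ)
    {G : Type} [Group G]
    (φ : G →* (MvPolynomial (Fin n) ℂ ≃ₐ[ℂ] MvPolynomial (Fin n) ℂ)) (d : ℕ) :
    Submodule ℂ (MvPolynomial (Fin n) ℂ ⧸ Ideal.span (Set.range f)) where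
  carrier := {r | ∃ p, IsWeightedHomogeneous w p d ∧
    Ideal.Quotient.mk (Ideal.span (Set.range f)) p = r ∧
    ∀ g, Ideal.Quotient.mk (Ideal.span (Set.range f)) (φ g p) = r}
  zero_mem' := ⟨0, isWeightedHomogeneous_zero _ _ _, by simp, by simp⟩
  add_mem' := by
    rintro _ _ ⟨p, hp, rfl, hp2⟩ ⟨q, hq, rfl, hq2⟩
    exact ⟨p + q, hp.add hq, by simp, fun g => by rw [map_add, map_add, hp2, hq2]⟩
  smul_mem' := by
    rintro c _ ⟨p, hp, rfl, hp2⟩
    refine ⟨c • p, ?_, rfl, fun g => ?_⟩
    · exact (weightedHomogeneousSubmodule ℂ w d).smul_mem c hp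
    · rw [map_smul]
      change c • Ideal.Quotient.mk (Ideal.span (Set.range f)) (φ g p) = _
      rw [hp2]

theorem result {n c : ℕ} (w : Fin n → ℕ) (hw : ∀ i, 0 < w i)
    (f : Fin c → MvPolynomial (Fin n) ℂ) (δ : Fin c → ℕ) (hδ : ∀ j, 2 ≤ δ j)
    (hf : ∀ j, IsWeightedHomogeneous w (f j) (δ j))
    (G : Type) [Group G] [Finite G]
    (φ : G →* (MvPolynomial (Fin n) ℂ ≃ₐ[ℂ] MvPolynomial (Fin n) ℂ))
    -- `G` acts linearly on the variables of every weight, and on the span of the equations of every
    -- degree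
    (hφX : ∀ g i, φ g (X i) ∈
      Submodule.span ℂ ((X : Fin n → MvPolynomial (Fin n) ℂ) '' {k | w k = w i}))
    (hφf : ∀ g j, φ g (f j) ∈ Submodule.span ℂ (f '' {l | δ l = δ j}))
    -- elements of `S = ⨁ₘ (R_{2m})^G` of two consecutive degrees do not vanish at `v`
    (hL : ∀ v : Fin n → ℂ, v ≠ 0 → (∀ j, eval v (f j) = 0) → ∃ (d : ℕ)
      (a b : MvPolynomial (Fin n) ℂ), IsWeightedHomogeneous w a (2 * d) ∧
      IsWeightedHomogeneous w b (2 * (d + 1)) ∧
      (∀ g, φ g a - a ∈ Ideal.span (Set.range f)) ∧
      (∀ g, φ g b - b ∈ Ideal.span (Set.range f)) ∧ eval v a ≠ 0 ∧ eval v b ≠ 0) :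
    (∑ i, (w i : ℤ)) - ∑ j, (δ j : ℤ) ≤ 2 * (Module.finrank ℂ (invPart w f φ 2) : ℤ) :=
  Pool.Agent.X213.Two.main w hw f δ hδ hf G φ hφX hφf hL

end Pool.Agent.Results.MP_954e53_ag.DegreeTwoInvariants
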