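import Pool.Agent.Y374.PF.Zero

/-!
# Section rings of complete intersections in products of fake weighted projective spaces

`R = k[x]/(f₁, …, f_c)` where the variables `x ⟨i, l⟩`, `l < N i`, come in groups `i ∈ ι` with positive
weights `w i l`, the equations are multihomogeneous of multidegree `d j`, and finite groups `G i`
act diagonally on the `i`-th group of variables, so that `X = V(f)/∏ G i` lies in the product of the
fake weighted projective spaces `P(w i)/G i`. Let `h : ι → ℕ` and
`S = ⨁ₘ (R_{m h})^G`, `G = ∏ G i`. If `S` is a section ring, then for every `i` there are many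
variables of the group `i` with `w i l ∣ h i` and `x ⟨i, l⟩ ^ (h i / w i l)` invariant. If
`∑ l, w i l > ∑ j, d j i` for all `i` (`X` is a Fano variety), then `S₁ ≠ 0`.

Idea of the proof. Fix a point of `X` in all factors except the `i`-th one and count in the `i`-th
factor the coordinates and the equations fixed by an element of `G i × μ_∞`; average over the
group against `1 - Re μ ^ (h i)`.
-/

set_option autoImplicit false

namespace Pool.Agent.Results.MP_954e53_ag.ProductsOfWeightedSpaces

open MvPolynomial Finset Pool.Agent.TH144.NV Pool.Agent.Y374.PF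

/-- Multihomogeneous equations in groups of variables with positive weights, and diagonal actions of
finite groups on the groups of variables. `w i l`: weights; `f j` is homogeneous of degree `d j i`
in the variables of the group `i`; `G i` acts on the variables of the group `i` by the characters
`α i l`, and the product of the `G i` acts on `f j` by the character `χ j`. -/
structure Datum (k : Type) [Field k] {ι : Type} [DecidableEq ι] (G : ι → Type)
    [∀ i, Group (G i)] (N : ι → ℕ) (c : ℕ) where
  w : ∀ i, Fin (N i) → ℕ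
  w_pos : ∀ i l, 0 < w i l
  d : Fin c → ι → ℕ
  f : Fin c → MvPolynomial (Σ i, Fin (N i)) k
  homogeneous : ∀ j i, IsWeightedHomogeneous
    (fun s : Σ i, Fin (N i) => if s.1 = i then w s.1 s.2 else 0) (f j) (d j i)
  α : ∀ i, Fin (N i) → G i →* kˣ
  χ : Fin c → (∀ i, G i) →* kˣ
  semi : ∀ j (g : ∀ i, G i), act (fun s => (α s.1 s.2 (g s.1) : k)) (f j) = C (χ j g : k) * f j

variable {k : Type} [Field k] {ι : Type} [DecidableEq ι] [Fintype ι] {G : ι → Type}
  [∀ i, Group (G i)] {N : ι → ℕ} {c : ℕ}

namespace Datum

variable (D : Datum k G N c)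

/-- the ideal of the equations -/
noncomputable def I : Ideal (MvPolynomial (Σ i, Fin (N i)) k) := Ideal.span (Set.range D.f)

/-- the points of the product of the projective spaces at which the equations vanish: the common
zeros which are nonzero in every group of variables -/
def Points : Set (∀ i, Fin (N i) → k) :=
  {p | (∀ i, p i ≠ 0) ∧ ∀ j, eval (fun s => p s.1 s.2) (D.f j) = 0}

/-- the class of `a` in `R` is an invariant form of multidegree `e` -/
def Inv (e : ι → ℕ) (a : MvPolynomial (Σ i, Fin (N i)) k) : Prop :=
  (∀ i, IsWeightedHomogeneous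
    (fun s : Σ i, Fin (N i) => if s.1 = i then D.w s.1 s.2 else 0) a (e i)) ∧
    ∀ g : ∀ i, G i, Ideal.Quotient.mk D.I (act (fun s => (D.α s.1 s.2 (g s.1) : k)) a) =
      Ideal.Quotient.mk D.I a

/-- At every point invariant forms of some consecutive multidegrees `m h` and `(m + 1) h` do not
vanish. This holds if `⨁ₘ (R_{m h})^G` is the section ring of an ample invertible sheaf. -/
def SectionRing (h : ι → ℕ) : Prop :=
  ∀ p ∈ D.Points, ∃ (m : ℕ) (a b : MvPolynomial (Σ i, Fin (N i)) k),
    D.Inv (fun i => m * h i) a ∧ D.Inv (fun i => (m + 1) * h i) b ∧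
      eval (fun s => p s.1 s.2) a ≠ 0 ∧ eval (fun s => p s.1 s.2) b ≠ 0

omit [Fintype ι] in
theorem eval_mem {p : ∀ i, Fin (N i) → k} (hp : p ∈ D.Points)
    {a : MvPolynomial (Σ i, Fin (N i)) k} (ha : a ∈ D.I) : eval (fun s => p s.1 s.2) a = 0 := by
  have h1 : D.I ≤ RingHom.ker (eval (fun s => p s.1 s.2)) := by
    rw [I, Ideal.span_le]
    rintro _ ⟨j, rfl⟩
    exact (RingHom.mem_ker).2 (hp.2 j)
  exact (RingHom.mem_ker).1 (h1 ha)

/-- scaling in the group `i` of variables -/
theorem eval_scale (i : ι) {a : MvPolynomial (Σ i, Fin (N i)) k} {e : ℕ}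
    (ha : IsWeightedHomogeneous
      (fun s : Σ i, Fin (N i) => if s.1 = i then D.w s.1 s.2 else 0) a e) (t : k)
    (p : ∀ i, Fin (N i) → k) (v : Fin (N i) → k) (q : Fin (N i) → k)
    (hq : ∀ l, q l = t ^ D.w i l * v l) :
    eval (fun s => Function.update p i q s.1 s.2) a =
      t ^ e * eval (fun s => Function.update p i v s.1 s.2) a := by
  rw [← eval_wscale ha]
  congr 2
  funext s
  obtain ⟨l, b⟩ := s
  by_cases h : l = i
  · subst h
    simp [hq]
  · simp [h]

/-- the eigenvalues of fixed points in the factor `i` are roots of unity of order `h i` -/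
theorem pow_eq_one {h : ι → ℕ} (hS : D.SectionRing h) {p : ∀ i, Fin (N i) → k} (i : ι)
    {v : Fin (N i) → k} (hp : Function.update p i v ∈ D.Points) (g : G i) (μ : kˣ)
    (hfix : ∀ l, (D.α i l g : k) * v l = (μ : k) ^ D.w i l * v l) : μ ^ h i = 1 := by
  obtain ⟨m, a, b, ha, hb, ha0, hb0⟩ := hS _ hp
  have key : ∀ {e : ι → ℕ} {a : MvPolynomial (Σ i, Fin (N i)) k}, D.Inv e a →
      eval (fun s => Function.update p i v s.1 s.2) a ≠ 0 → (μ : k) ^ e i = 1 := by
    intro e a ha ha0
    have h1 := ha.2 (Pi.mulSingle i g)
    rw [Ideal.Quotient.eq] at h1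
    have h2 := D.eval_mem hp h1
    rw [map_sub, sub_eq_zero, eval_act] at h2
    have h3 : (fun s : Σ i, Fin (N i) => (D.α s.1 s.2 ((Pi.mulSingle i g : ∀ i, G i) s.1) : k) *
        Function.update p i v s.1 s.2) =
        fun s => Function.update p i (fun l => (μ : k) ^ D.w i l * v l) s.1 s.2 := by
      funext s
      obtain ⟨l, b⟩ := s
      by_cases h : l = i
      · subst h
        simp [hfix]
      · simp [h]
    rw [h3, D.eval_scale i (ha.1 i) (μ : k) p v _ fun l => rfl] at h2
    exact mul_right_cancel₀ ha0 (by rw [h2, one_mul])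
  have h1 := key ha ha0
  have h2 := key hb hb0
  rw [add_mul, pow_add, h1, one_mul, one_mul] at h2
  ext
  simpa using h2

/-- substitution of the coordinates of a point in the groups of variables different from `i` -/
noncomputable def sub (p : ∀ i, Fin (N i) → k) (i : ι) :
    MvPolynomial (Σ i, Fin (N i)) k →ₐ[k] MvPolynomial (Fin (N i)) k :=
  aeval fun s => Function.update (fun l b => C (p l b)) i X s.1 s.2

omit [Fintype ι] in
theorem eval_sub (p : ∀ i, Fin (N i) → k) (i : ι) (v : Fin (N i) → k)
    (a : MvPolynomial (Σ i, Fin (N i)) k) :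
    eval v (sub p i a) = eval (fun s => Function.update p i v s.1 s.2) a := by
  unfold sub
  induction a using MvPolynomial.induction_on with
  | C c => simp
  | add a b ha hb => simp only [map_add, ha, hb]
  | mul_X a s ha =>
    rw [map_mul, map_mul, map_mul, ha, eval_X, aeval_X]
    congr 1
    obtain ⟨l, b⟩ := s
    by_cases h : l = i
    · subst h
      simp
    · simp [h]

open Classical in
theorem not_good_le [IsAlgClosed k] [CharZero k] [∀ i, Finite (G i)] {h : ι → ℕ}
    (hS : D.SectionRing h) (hne : ∃ p, p ∈ D.Points) (i : ι) :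
    ∑ l ∈ univ.filter (fun l => ¬ Good (h i) (D.w i l) (D.α i l)), D.w i l ≤ ∑ j, D.d j i := by
  obtain ⟨p, hp⟩ := hne
  have main := main_ineq (k := k) (G := G i) (D.w i) (D.w_pos i)
    (fun j : {j : Fin c // 0 < D.d j i} => D.d j.1 i) (fun j => j.2) (D.α i)
    (fun j => (D.χ j.1).comp (MonoidHom.mulSingle G i)) (h i) (by
    intro g μ hμ
    set T : Finset (Fin (N i)) := univ.filter (fun l => D.α i l g = μ ^ D.w i l) with hT
    have hTm : ∀ l, l ∈ T → D.α i l g = μ ^ D.w i l := fun l hl => (Finset.mem_filter.1 hl).2
    have h2 := card_le_of (k := k) (κ := {j // j ∈ univ.filter fun j : {j : Fin c // 0 < D.d j i} =>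
        ((D.χ j.1).comp (MonoidHom.mulSingle G i)) g = μ ^ D.d j.1 i}) T
      (fun j => sub p i (D.f j.1.1)) (by
        intro j
        rw [eval_sub, D.eval_scale i (D.homogeneous j.1.1 i) 0 p (p i) 0 (fun l => by
          rw [zero_pow (D.w_pos i l).ne', zero_mul]; rfl), zero_pow j.1.2.ne', zero_mul]) (by
        intro v hv hz
        by_contra hv0
        have hfix : ∀ l, (D.α i l g : k) * v l = (μ : k) ^ D.w i l * v l := by
          intro l
          by_cases hl : l ∈ T
          · rw [hTm l hl, Units.val_pow_eq_pow_val]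
          · rw [hv l hl, mul_zero, mul_zero]
        refine hμ (D.pow_eq_one hS (p := p) i (v := v) ⟨fun l => ?_, fun j => ?_⟩ g μ hfix)
        · by_cases hl : l = i
          · subst hl
            rw [Function.update_self]
            exact hv0
          · rw [Function.update_of_ne hl]
            exact hp.1 l
        · -- the equations vanish
          have hact : eval (fun s => Function.update p i (fun l => (μ : k) ^ D.w i l * v l) s.1 s.2)
              (D.f j) = (D.χ j (Pi.mulSingle i g) : k) *
                eval (fun s => Function.update p i v s.1 s.2) (D.f j) := by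
            have h3 := congrArg (eval (fun s => Function.update p i v s.1 s.2))
              (D.semi j (Pi.mulSingle i g))
            rw [eval_act, map_mul, eval_C] at h3
            rw [← h3]
            congr 2
            funext s
            obtain ⟨l, b⟩ := s
            by_cases h : l = i
            · subst h
              simp [hfix]
            · simp [h]
          have hsc := D.eval_scale i (D.homogeneous j i) (μ : k) p v _ fun l => rfl
          by_cases hd : 0 < D.d j i
          · by_cases hχ : ((D.χ j).comp (MonoidHom.mulSingle G i)) g = μ ^ D.d j i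
            · rw [← eval_sub]
              exact hz ⟨⟨j, hd⟩, Finset.mem_filter.2 ⟨mem_univ _, hχ⟩⟩
            · rw [hsc] at hact
              have h4 : ((μ : k) ^ D.d j i - (D.χ j (Pi.mulSingle i g) : k)) *
                  eval (fun s => Function.update p i v s.1 s.2) (D.f j) = 0 := by
                rw [sub_mul, hact, sub_self]
              rcases mul_eq_zero.1 h4 with h5 | h5
              · exfalso
                apply hχ
                ext
                rw [Units.val_pow_eq_pow_val]
                exact (sub_eq_zero.1 h5).symm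
              · exact h5
          · -- degree zero in the group `i`
            have hd0 : D.d j i = 0 := by omega
            have h4 : ∀ v : Fin (N i) → k, eval (fun s => Function.update p i v s.1 s.2) (D.f j) =
                eval (fun s => Function.update p i (0 : Fin (N i) → k) s.1 s.2) (D.f j) := by
              intro v
              have h5 := D.eval_scale i (D.homogeneous j i) 0 p v 0 (fun l => by
                rw [zero_pow (D.w_pos i l).ne', zero_mul]; rfl)
              rw [h5, hd0, pow_zero, one_mul]
            have h5 := h4 (p i)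
            rw [Function.update_eq_self, hp.2 j] at h5
            rw [h4 v, ← h5])
    rw [Fintype.card_coe] at h2
    exact h2)
  have h2 : ∑ j ∈ univ.filter (fun j : {j : Fin c // 0 < D.d j i} =>
      ¬ Good (h i) (D.d j.1 i) ((D.χ j.1).comp (MonoidHom.mulSingle G i))), D.d j.1 i ≤
      ∑ j : {j : Fin c // 0 < D.d j i}, D.d j.1 i :=
    Finset.sum_le_sum_of_subset (Finset.filter_subset _ _)
  have h3 : ∑ j : {j : Fin c // 0 < D.d j i}, D.d j.1 i ≤ ∑ j, D.d j i := by
    rw [← Finset.sum_subtype (univ.filter fun j : Fin c => 0 < D.d j i) (by simp)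
      (fun j => D.d j i)]
    exact Finset.sum_le_sum_of_subset (Finset.filter_subset _ _)
  exact le_trans (by convert main) (h2.trans h3)

end Datum

open Classical in
theorem result [IsAlgClosed k] [CharZero k] [∀ i, Finite (G i)] (D : Datum k G N c) {h : ι → ℕ}
    -- a point of `X` at which no variable vanishes (`X` is irreducible and lies in no coordinate
    -- hyperplane)
    (hfull : ∃ p ∈ D.Points, ∀ i l, p i l ≠ 0)
    -- the ring of the `(R_{m h})^G` is a section ring
    (hS : D.SectionRing h) :
    (∀ i, ∃ T : Finset (Fin (N i)), ∑ l, D.w i l ≤ ∑ j, D.d j i + ∑ l ∈ T, D.w i l ∧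
      ∀ l ∈ T, D.w i l ∣ h i ∧ ∀ g, D.α i l g ^ (h i / D.w i l) = 1) ∧
    ((∀ i, ∑ j, D.d j i < ∑ l, D.w i l) →
      ∃ s, D.Inv h s ∧ ¬ IsNilpotent (Ideal.Quotient.mk D.I s)) := by
  obtain ⟨p, hp, hp0⟩ := hfull
  have hmain := fun i => D.not_good_le hS ⟨p, hp⟩ i
  have hT : ∀ i, ∑ l, D.w i l ≤ ∑ j, D.d j i +
      ∑ l ∈ univ.filter (fun l => Good (h i) (D.w i l) (D.α i l)), D.w i l := by
    intro i
    have h1 := Finset.sum_filter_add_sum_filter_not (univ : Finset (Fin (N i)))
      (fun l => Good (h i) (D.w i l) (D.α i l)) (D.w i)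
    have h2 := hmain i
    omega
  have hgood : ∀ i l, l ∈ univ.filter (fun l => Good (h i) (D.w i l) (D.α i l)) →
      D.w i l ∣ h i ∧ ∀ g, D.α i l g ^ (h i / D.w i l) = 1 :=
    fun i l hl => ((Finset.mem_filter.1 hl).2).dvd (D.w_pos i l)
  refine ⟨fun i => ⟨_, hT i, hgood i⟩, fun hlt => ?_⟩
  have hne : ∀ i, ∃ l, l ∈ univ.filter (fun l => Good (h i) (D.w i l) (D.α i l)) := by
    intro i
    by_contra hcon
    push Not at hcon
    have h1 := hT i
    rw [Finset.eq_empty_of_forall_notMem hcon, Finset.sum_empty] at h1
    have h2 := hlt i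
    omega
  choose l hl using hne
  set s : MvPolynomial (Σ i, Fin (N i)) k := ∏ i, X ⟨i, l i⟩ ^ (h i / D.w i (l i)) with hs
  refine ⟨s, ⟨fun i => ?_, fun g => ?_⟩, ?_⟩
  · have h1 := IsWeightedHomogeneous.prod (R := k) univ
      (fun a => (X ⟨a, l a⟩ : MvPolynomial (Σ i, Fin (N i)) k) ^ (h a / D.w a (l a)))
      (fun a => (h a / D.w a (l a)) • (if a = i then D.w a (l a) else 0))
      (w := fun s : Σ i, Fin (N i) => if s.1 = i then D.w s.1 s.2 else 0)
      (fun a _ => (isWeightedHomogeneous_X k _ _).pow _)
    have h2 : ∑ a, (h a / D.w a (l a)) • (if a = i then D.w a (l a) else 0) = h i := by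
      rw [Finset.sum_eq_single i]
      · rw [if_pos rfl, smul_eq_mul]
        exact Nat.div_mul_cancel (hgood i (l i) (hl i)).1
      · intro a _ ha
        rw [if_neg ha, smul_zero]
      · intro h; exact absurd (mem_univ i) h
    rw [h2] at h1
    exact h1
  · have h1 : act (fun s => (D.α s.1 s.2 (g s.1) : k)) s = s := by
      rw [hs, map_prod]
      refine Finset.prod_congr rfl fun i _ => ?_
      rw [map_pow]
      unfold act
      rw [aeval_X, mul_pow, ← C_pow, ← Units.val_pow_eq_pow_val,
        (hgood i (l i) (hl i)).2 (g i), Units.val_one, C_1, one_mul]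
    rw [h1]
  · rintro ⟨m, hm⟩
    rw [← map_pow, Ideal.Quotient.eq_zero_iff_mem] at hm
    have h1 := D.eval_mem hp hm
    rw [map_pow, hs, map_prod] at h1
    have h2 := eq_zero_of_pow_eq_zero h1
    rw [Finset.prod_eq_zero_iff] at h2
    obtain ⟨i, _, hi⟩ := h2
    rw [map_pow, eval_X] at hi
    exact hp0 i (l i) (eq_zero_of_pow_eq_zero hi)

end Pool.Agent.Results.MP_954e53_ag.ProductsOfWeightedSpaces
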