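import Pool.Agent.X213.Key

/-!
# Section rings from symmetric matrices of rank two: sections of the generating sheaf

`R = k[x₁, …, x_N]/I` with positive weights `w i`, where `I` is generated by the minors of size 3 of a
homogeneous symmetric matrix of odd size `2 q + 1` with entries of positive degrees, a finite group
`G` acting diagonally, and `S = ⨁ₘ (R_{hm})^G`. If `S` is a section ring and
`∑ w i > q deg (det M)`, i.e. `a(R) < 0`, then `S₁ ≠ 0`; if `h = 1`, then `dim S₁ ≥ -a(R)`.

Idea of the proof. The minors have no common zero on the subspace of the coordinates which are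
fixed by an element of `G × μ_∞` whose character on `S₁` is not trivial. They vanish if all entries
outside one row and the column of the same index vanish. So the number of these coordinates is at
most the number of the remaining entries which do not vanish on the subspace. The inequality is
averaged over the rows and then over the group against `1 - Re μ ^ h`.
-/

set_option autoImplicit false

namespace Pool.Agent.Results.MP_954e53_ag.SymmetricFormats

open MvPolynomial Finset Pool.Agent.TH144.NV Pool.Agent.Y374.PF Pool.Agent.X213.Key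

/-- A homogeneous symmetric matrix of size `2 q + 1` over a polynomial ring with positive weights and
a diagonal action of `G`. `w i`: weights of the variables; the entry `M a b` is homogeneous of degree
`d a b = (e a + e b) / 2 > 0`; `G` acts by the characters `α i` on the variables and `χ a b` on
`M a b`, with `χ a b * χ a' b' = χ a b' * χ a' b`, so that `G` acts on the minors by characters. -/
structure Datum (k : Type) [Field k] (G : Type) [Group G] (N q : ℕ) where
  w : Fin N → ℕ
  w_pos : ∀ i, 0 < w i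
  e : Fin (2 * q + 1) → ℤ
  d : Fin (2 * q + 1) → Fin (2 * q + 1) → ℕ
  d_pos : ∀ a b, 0 < d a b
  d_eq : ∀ a b, 2 * (d a b : ℤ) = e a + e b
  M : Matrix (Fin (2 * q + 1)) (Fin (2 * q + 1)) (MvPolynomial (Fin N) k)
  symm : ∀ a b, M a b = M b a
  homogeneous : ∀ a b, IsWeightedHomogeneous w (M a b) (d a b)
  α : Fin N → G →* kˣ
  χ : Fin (2 * q + 1) → Fin (2 * q + 1) → G →* kˣ
  χ_rel : ∀ g a b a' b', χ a b g * χ a' b' g = χ a b' g * χ a' b g
  semi : ∀ g a b, act (fun i => (α i g : k)) (M a b) = C (χ a b g : k) * M a b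

variable {k : Type} [Field k] {G : Type} [Group G] {N q : ℕ}

namespace Datum

variable (D : Datum k G N q)

/-- the minor of size `3` with the rows `x.1` and the columns `x.2` -/
noncomputable def minor (x : (Fin 3 → Fin (2 * q + 1)) × (Fin 3 → Fin (2 * q + 1))) :
    MvPolynomial (Fin N) k := (D.M.submatrix x.1 x.2).det

/-- the ideal of the minors of size `3` -/
noncomputable def I : Ideal (MvPolynomial (Fin N) k) := Ideal.span (Set.range D.minor)

/-- the ring `R = k[x]/I` with the action of `G` -/
noncomputable def sys : Sys k G N where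
  w := D.w
  w_pos := D.w_pos
  α := D.α
  I := D.I

/-- `q deg (det M)`, which is `a(R) + ∑ w i` -/
def top : ℤ := q * ∑ a, D.e a

/-- if the entries outside of the row and the column `o` vanish, all minors of size `3` vanish -/
theorem mem_cone (o : Fin (2 * q + 1)) {p : Fin N → k}
    (hp : ∀ a b, a ≠ o → b ≠ o → eval p (D.M a b) = 0) : p ∈ D.sys.Cone := by
  classical
  have h1 : D.I ≤ RingHom.ker (eval p) := by
    rw [I, Ideal.span_le]
    rintro _ ⟨x, rfl⟩
    refine RingHom.mem_ker.2 ?_
    unfold minor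
    rw [RingHom.map_det]
    by_cases hx : Function.Injective x.1
    · by_cases hy : Function.Injective x.2
      · rw [Matrix.det_apply]
        refine Finset.sum_eq_zero fun σ _ => ?_
        have h2 : ∃ i, x.1 (σ i) ≠ o ∧ x.2 i ≠ o := by
          by_contra hcon
          push Not at hcon
          have h3 : (univ : Finset (Fin 3)) ⊆ univ.filter (fun i => x.1 (σ i) = o) ∪
              univ.filter (fun i => x.2 i = o) := by
            intro i _
            rw [Finset.mem_union, Finset.mem_filter, Finset.mem_filter]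
            by_cases hi : x.1 (σ i) = o
            · exact Or.inl ⟨mem_univ _, hi⟩
            · exact Or.inr ⟨mem_univ _, hcon i hi⟩
          have h4 : (univ.filter (fun i => x.1 (σ i) = o)).card ≤ 1 := by
            rw [Finset.card_le_one]
            intro i hi j hj
            exact σ.injective (hx (((Finset.mem_filter.1 hi).2).trans
              ((Finset.mem_filter.1 hj).2).symm))
          have h5 : (univ.filter (fun i => x.2 i = o)).card ≤ 1 := by
            rw [Finset.card_le_one]
            intro i hi j hj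
            exact hy (((Finset.mem_filter.1 hi).2).trans ((Finset.mem_filter.1 hj).2).symm)
          have h6 := (Finset.card_le_card h3).trans (Finset.card_union_le _ _)
          rw [Finset.card_univ, Fintype.card_fin] at h6
          omega
        obtain ⟨i, hi1, hi2⟩ := h2
        rw [Finset.prod_eq_zero (mem_univ i) (hp _ _ hi1 hi2), smul_zero]
      · simp only [Function.Injective, not_forall] at hy
        obtain ⟨i, j, hij, hne⟩ := hy
        refine Matrix.det_zero_of_column_eq hne fun l => ?_
        simp only [RingHom.mapMatrix_apply, Matrix.map_apply, Matrix.submatrix_apply, hij]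
    · simp only [Function.Injective, not_forall] at hx
      obtain ⟨i, j, hij, hne⟩ := hx
      refine Matrix.det_zero_of_row_eq hne ?_
      funext l
      simp only [RingHom.mapMatrix_apply, Matrix.map_apply, Matrix.submatrix_apply, hij]
  exact fun a ha => RingHom.mem_ker.1 (h1 ha)

/-- the ideal contains no forms of degree one -/
theorem eq_zero_of_mem {f : MvPolynomial (Fin N) k} (hf : IsWeightedHomogeneous D.w f 1)
    (hI : f ∈ D.I) : f = 0 := by
  refine Sys.eq_zero_of_sq ?_ hf hI
  rintro _ ⟨x, rfl⟩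
  have h2 : ∀ a b, (Polynomial.X : Polynomial (MvPolynomial (Fin N) k)) ∣ φ D.w (D.M a b) := by
    intro a b
    rw [φ_hom (D.homogeneous a b)]
    exact Dvd.dvd.mul_left (dvd_pow_self _ (D.d_pos a b).ne') _
  choose Q hQ using h2
  have h3 : (φ D.w).toRingHom.mapMatrix (D.M.submatrix x.1 x.2) =
      (Polynomial.X : Polynomial (MvPolynomial (Fin N) k)) •
        (Matrix.of fun i j => Q (x.1 i) (x.2 j)) := by
    ext1 a b
    simp only [RingHom.mapMatrix_apply, Matrix.map_apply, Matrix.smul_apply, Matrix.of_apply,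
      smul_eq_mul, Matrix.submatrix_apply]
    exact hQ _ _
  have h4 : φ D.w (D.minor x) = Polynomial.X ^ 3 *
      (Matrix.of fun i j => Q (x.1 i) (x.2 j)).det := by
    have h5 : φ D.w (D.minor x)
        = ((φ D.w).toRingHom.mapMatrix (D.M.submatrix x.1 x.2)).det := by
      rw [← RingHom.map_det]; rfl
    rw [h5, h3, Matrix.det_smul, Fintype.card_fin]
  rw [h4]
  exact Dvd.dvd.mul_right (pow_dvd_pow _ (by omega)) _

/-- the sum of the degrees of the entries outside of a row and a column, over all rows -/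
theorem sum_degrees : ∑ o : Fin (2 * q + 1),
    ∑ x ∈ (univ.filter fun x : {x : Fin (2 * q + 1) × Fin (2 * q + 1) // x.1 ≤ x.2} =>
      x.1.1 = o ∨ x.1.2 = o)ᶜ, (D.d x.1.1 x.1.2 : ℤ) = (2 * q + 1 : ℕ) * D.top := by
  classical
  -- the sum over all ordered pairs and over the diagonal
  have hsym : ∀ a b, D.d a b = D.d b a := by
    intro a b
    have h1 := D.d_eq a b
    have h2 := D.d_eq b a
    have h3 : (D.d a b : ℤ) = D.d b a := by linarith
    exact_mod_cast h3
  have hcount : ∀ x : {x : Fin (2 * q + 1) × Fin (2 * q + 1) // x.1 ≤ x.2},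
      ((univ.filter fun o : Fin (2 * q + 1) => ¬ (x.1.1 = o ∨ x.1.2 = o)).card : ℤ) =
        if x.1.1 = x.1.2 then 2 * (q : ℤ) else 2 * q - 1 := by
    intro x
    have h1 : (univ.filter fun o : Fin (2 * q + 1) => ¬ (x.1.1 = o ∨ x.1.2 = o)) =
        ({x.1.1, x.1.2} : Finset (Fin (2 * q + 1)))ᶜ := by
      ext o
      simp only [Finset.mem_filter, Finset.mem_univ, true_and, Finset.mem_compl,
        Finset.mem_insert, Finset.mem_singleton, not_or]
      constructor
      · rintro ⟨h1, h2⟩
        exact ⟨fun h => h1 h.symm, fun h => h2 h.symm⟩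
      · rintro ⟨h1, h2⟩
        exact ⟨fun h => h1 h.symm, fun h => h2 h.symm⟩
    rw [h1, Finset.card_compl, Fintype.card_fin]
    split_ifs with h
    · rw [h]
      simp
    · rw [Finset.card_pair h]
      have h2 : 2 ≤ 2 * q + 1 := by
        by_contra hc
        have h4 := x.1.1.2
        have h5 := x.1.2.2
        exact h (Fin.ext (by omega))
      rw [Nat.cast_sub h2]
      push_cast
      ring
  have hswap : ∑ o : Fin (2 * q + 1),
      ∑ x ∈ (univ.filter fun x : {x : Fin (2 * q + 1) × Fin (2 * q + 1) // x.1 ≤ x.2} =>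
        x.1.1 = o ∨ x.1.2 = o)ᶜ, (D.d x.1.1 x.1.2 : ℤ) =
      ∑ x : {x : Fin (2 * q + 1) × Fin (2 * q + 1) // x.1 ≤ x.2},
        (if x.1.1 = x.1.2 then 2 * (q : ℤ) else 2 * q - 1) * D.d x.1.1 x.1.2 := by
    have h1 : ∀ o : Fin (2 * q + 1),
        ∑ x ∈ (univ.filter fun x : {x : Fin (2 * q + 1) × Fin (2 * q + 1) // x.1 ≤ x.2} =>
          x.1.1 = o ∨ x.1.2 = o)ᶜ, (D.d x.1.1 x.1.2 : ℤ) =
        ∑ x : {x : Fin (2 * q + 1) × Fin (2 * q + 1) // x.1 ≤ x.2},
          if ¬ (x.1.1 = o ∨ x.1.2 = o) then (D.d x.1.1 x.1.2 : ℤ) else 0 := by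
      intro o
      rw [← Finset.sum_filter]
      refine Finset.sum_congr ?_ fun _ _ => rfl
      ext x
      simp
    simp only [h1]
    rw [Finset.sum_comm]
    refine Finset.sum_congr rfl fun x _ => ?_
    rw [← Finset.sum_filter, Finset.sum_const, nsmul_eq_mul, hcount x]
  rw [hswap]
  -- sums over unordered pairs
  have hpairs : ∀ f : Fin (2 * q + 1) → Fin (2 * q + 1) → ℤ, (∀ a b, f a b = f b a) →
      2 * ∑ x : {x : Fin (2 * q + 1) × Fin (2 * q + 1) // x.1 ≤ x.2}, f x.1.1 x.1.2 =
        ∑ a, ∑ b, f a b + ∑ a, f a a := by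
    intro f hf
    have h1 : ∑ x : {x : Fin (2 * q + 1) × Fin (2 * q + 1) // x.1 ≤ x.2}, f x.1.1 x.1.2 =
        ∑ a, ∑ b, if a ≤ b then f a b else 0 := by
      rw [← Fintype.sum_prod_type' (f := fun a b => if a ≤ b then f a b else 0),
        ← Finset.sum_filter]
      exact (Finset.sum_subtype _ (by simp) (fun x : Fin (2 * q + 1) × Fin (2 * q + 1) =>
        f x.1 x.2)).symm
    have h2 : ∑ a, ∑ b, (if a ≤ b then f a b else 0) = ∑ a, ∑ b, if b ≤ a then f a b else 0 := by
      rw [Finset.sum_comm]
      refine Finset.sum_congr rfl fun a _ => Finset.sum_congr rfl fun b _ => ?_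
      rw [hf]
    have h3 : ∑ a, ∑ b, (if a ≤ b then f a b else 0) + ∑ a, ∑ b, (if b ≤ a then f a b else 0) =
        ∑ a, ∑ b, f a b + ∑ a, f a a := by
      rw [← Finset.sum_add_distrib, ← Finset.sum_add_distrib]
      refine Finset.sum_congr rfl fun a _ => ?_
      rw [← Finset.sum_add_distrib]
      have h4 : f a a = ∑ b, if b = a then f a b else 0 := by simp
      rw [h4, ← Finset.sum_add_distrib]
      refine Finset.sum_congr rfl fun b _ => ?_
      rcases lt_trichotomy a b with hab | hab | hab
      · rw [if_pos hab.le, if_neg (not_le.2 hab), if_neg hab.ne']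
      · subst hab
        simp
      · rw [if_neg (not_le.2 hab), if_pos hab.le, if_neg hab.ne]
        ring
    rw [h1, two_mul]
    conv_lhs => rw [h2]
    rw [← h3, h2]
  have h1 := hpairs (fun a b => (if a = b then 2 * (q : ℤ) else 2 * q - 1) * (2 * D.d a b))
    (fun a b => by
      rw [hsym a b]
      by_cases h : a = b
      · rw [if_pos h, if_pos h.symm]
      · rw [if_neg h, if_neg (Ne.symm h)])
  have h2 : ∀ a : Fin (2 * q + 1), ∑ b, (if a = b then 2 * (q : ℤ) else 2 * q - 1) *
      (2 * (D.d a b : ℤ)) = (2 * q - 1) * ∑ b, (D.e a + D.e b) + 2 * D.e a := by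
    intro a
    have h3 : ∀ b, (if a = b then 2 * (q : ℤ) else 2 * q - 1) * (2 * (D.d a b : ℤ)) =
        (2 * q - 1) * (D.e a + D.e b) + if a = b then 2 * D.e a else 0 := by
      intro b
      rw [D.d_eq]
      by_cases h : a = b
      · subst h
        rw [if_pos rfl, if_pos rfl]
        ring
      · rw [if_neg h, if_neg h]
        ring
    simp only [h3]
    rw [Finset.sum_add_distrib, ← Finset.mul_sum]
    simp
  have h3 : 2 * (2 * ∑ x : {x : Fin (2 * q + 1) × Fin (2 * q + 1) // x.1 ≤ x.2},
        (if x.1.1 = x.1.2 then 2 * (q : ℤ) else 2 * q - 1) * D.d x.1.1 x.1.2) =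
      ∑ a, ((2 * q - 1) * ∑ b, (D.e a + D.e b) + 2 * D.e a) +
        ∑ a, 2 * (q : ℤ) * (2 * D.e a) := by
    have h4 : 2 * ∑ x : {x : Fin (2 * q + 1) × Fin (2 * q + 1) // x.1 ≤ x.2},
        (if x.1.1 = x.1.2 then 2 * (q : ℤ) else 2 * q - 1) * (D.d x.1.1 x.1.2 : ℤ) =
        ∑ x : {x : Fin (2 * q + 1) × Fin (2 * q + 1) // x.1 ≤ x.2},
        (if x.1.1 = x.1.2 then 2 * (q : ℤ) else 2 * q - 1) * (2 * (D.d x.1.1 x.1.2 : ℤ)) := by
      rw [Finset.mul_sum]
      refine Finset.sum_congr rfl fun x _ => ?_
      ring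
    rw [h4, h1]
    congr 1
    · exact Finset.sum_congr rfl fun a _ => h2 a
    · refine Finset.sum_congr rfl fun a _ => ?_
      rw [if_pos rfl, D.d_eq]
      ring
  have h4 : ∑ a : Fin (2 * q + 1), ((2 * (q : ℤ) - 1) * ∑ b, (D.e a + D.e b) + 2 * D.e a) +
        ∑ a, 2 * (q : ℤ) * (2 * D.e a) = 4 * ((2 * q + 1) * (q * ∑ a, D.e a)) := by
    simp only [Finset.sum_add_distrib, ← Finset.mul_sum, Finset.sum_const, Finset.card_univ,
      Fintype.card_fin, nsmul_eq_mul]
    push_cast
    ring
  unfold top
  push_cast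
  linarith

end Datum

theorem result [IsAlgClosed k] [CharZero k] [Finite G] (D : Datum k G N q) {h : ℕ}
    (hh : 0 < h)
    -- no variable vanishes on the cone
    (hfull : ∀ i, ∃ p ∈ D.sys.Cone, p i ≠ 0)
    -- the ring of the `(R_{hm})^G` is a section ring
    (hS : D.sys.SectionRing h) :
    (∃ T : Finset (Fin N), ∑ i, (D.w i : ℤ) ≤ D.top + ∑ i ∈ T, (D.w i : ℤ) ∧
      ∀ i ∈ T, D.w i ∣ h ∧ D.sys.Inv h (X i ^ (h / D.w i)) ∧
        ¬ IsNilpotent (Ideal.Quotient.mk D.I (X i ^ (h / D.w i)))) ∧
    (D.top < ∑ i, (D.w i : ℤ) → ∃ s ∈ D.sys.sections h, ¬ IsNilpotent s) ∧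
    (h = 1 → ∑ i, (D.w i : ℤ) - D.top ≤ Module.finrank k (D.sys.sections 1)) := by
  classical
  refine D.sys.conclude hh hfull (fun f hf hI => D.eq_zero_of_mem hf hI) ?_
  have h1 := D.sys.not_good_le hS
    (τ := {x : Fin (2 * q + 1) × Fin (2 * q + 1) // x.1 ≤ x.2})
    (fun x => D.M x.1.1 x.1.2) (fun x => D.d x.1.1 x.1.2) (fun x => D.d_pos _ _)
    (fun x => D.homogeneous _ _) (fun x => D.χ x.1.1 x.1.2) (fun g x => D.semi g _ _)
    (m := 2 * q + 1) (by omega)
    (fun o => univ.filter fun x => x.1.1 = o ∨ x.1.2 = o)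
    (fun o p hp => D.mem_cone o fun a b ha hb => by
      rcases le_total a b with hab | hab
      · exact hp ⟨(a, b), hab⟩ (by simp [ha, hb])
      · rw [D.symm]
        exact hp ⟨(b, a), hab⟩ (by simp [ha, hb]))
    (top := D.top) D.sum_degrees
  convert h1

end Pool.Agent.Results.MP_954e53_ag.SymmetricFormats
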