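import Pool.Agent.X213.Key

/-!
# Section rings from toric key varieties: sections of the generating sheaf

`R = k[x₁, …, x_N]/I` with positive weights `w i`, where `I` is generated by the binomial relations
of an affine toric variety, evaluated at homogeneous forms `M a` (a toric format), a finite group `G`
acting diagonally, and `S = ⨁ₘ (R_{hm})^G`. If the monomial generator `x ^ u₀` of the canonical module
of the toric ring is balanced, i.e. `u₀` is the mean of the sums of the exponents over faces of the
toric variety which are coordinate subspaces, if `S` is a section ring and `∑ w i > top`, where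
`top = a(R) + ∑ w i`, then `S₁ ≠ 0`; if `h = 1`, then `dim S₁ ≥ -a(R)`.

Idea of the proof. The relations have no common zero on the subspace of the coordinates which are
fixed by an element of `G × μ_∞` whose character on `S₁` is not trivial. They vanish if all `M a`
outside a face which is a coordinate subspace vanish. So the number of these coordinates is at most
the number of the `M a` outside of the face which do not vanish on the subspace. The inequality is
averaged over the faces and then over the group against `1 - Re μ ^ h`.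
-/

set_option autoImplicit false

namespace Pool.Agent.Results.MP_954e53_ag.ToricFormats

open MvPolynomial Finset Pool.Agent.TH144.NV Pool.Agent.Y374.PF Pool.Agent.X213.Key

/-- `A` and `B` are exponents of a relation of the affine toric variety of the `u a`: the monomials
`∏ y_a ^ (A a)` and `∏ y_a ^ (B a)` have the same image `x ^ (∑ A a • u a)`. -/
def Rel {s r : ℕ} (u : Fin s → Fin r → ℤ) (A B : Fin s → ℕ) : Prop :=
  ∀ i, ∑ a, (A a : ℤ) * u a i = ∑ a, (B a : ℤ) * u a i

/-- A toric format over a polynomial ring with positive weights and a diagonal action of `G`.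
`w i`: weights of the variables; `u a`: distinct exponents in `ℤ ^ r`; the polynomial `M a` is
homogeneous of degree `d a = ℓ (u a) > 0`, `ℓ` linear; `G` acts by the characters `α i` on the
variables and `χ a` on `M a`, and the characters `χ a` satisfy the relations between the `u a`. -/
structure Datum (k : Type) [Field k] (G : Type) [Group G] (N s r : ℕ) where
  w : Fin N → ℕ
  w_pos : ∀ i, 0 < w i
  u : Fin s → Fin r → ℤ
  u_inj : Function.Injective u
  ℓ : Fin r → ℤ
  d : Fin s → ℕ
  d_pos : ∀ a, 0 < d a
  d_eq : ∀ a, (d a : ℤ) = ∑ i, ℓ i * u a i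
  M : Fin s → MvPolynomial (Fin N) k
  homogeneous : ∀ a, IsWeightedHomogeneous w (M a) (d a)
  α : Fin N → G →* kˣ
  χ : Fin s → G →* kˣ
  χ_rel : ∀ g A B, Rel u A B → ∏ a, χ a g ^ A a = ∏ a, χ a g ^ B a
  semi : ∀ g a, act (fun i => (α i g : k)) (M a) = C (χ a g : k) * M a

variable {k : Type} [Field k] {G : Type} [Group G] {N s r : ℕ}

namespace Datum

variable (D : Datum k G N s r)

/-- the ideal of the toric relations between the `M a` -/
noncomputable def I : Ideal (MvPolynomial (Fin N) k) :=
  Ideal.span {q | ∃ A B : Fin s → ℕ, Rel D.u A B ∧ q = ∏ a, D.M a ^ A a - ∏ a, D.M a ^ B a}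

/-- the ring `R = k[x]/I` with the action of `G` -/
noncomputable def sys : Sys k G N where
  w := D.w
  w_pos := D.w_pos
  α := D.α
  I := D.I

/-- `F` is a face of the toric variety and a coordinate subspace: a product of the `y_a`, `a ∈ F`,
is equal to no other product in the toric ring. -/
def IsSimplex (F : Finset (Fin s)) : Prop :=
  ∀ A B : Fin s → ℕ, (∀ a, a ∉ F → A a = 0) → Rel D.u A B → A = B

/-- `u₀` is the mean of the sums of the `u a` over the faces `F j`, `j < m`. -/
def Balanced {m : ℕ} (F : Fin m → Finset (Fin s)) (u₀ : Fin r → ℤ) : Prop :=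
  (∀ j, D.IsSimplex (F j)) ∧ ∀ i, ∑ j, ∑ a ∈ F j, D.u a i = m * u₀ i

/-- the degree `ℓ (∑ u a - u₀)`, which is `a(R) + ∑ w i` if `x ^ u₀` generates the canonical module
of the toric ring -/
def top (u₀ : Fin r → ℤ) : ℤ := ∑ i, D.ℓ i * (∑ a, D.u a i - u₀ i)

theorem mem_cone {F : Finset (Fin s)} (hF : D.IsSimplex F) {p : Fin N → k}
    (hp : ∀ a, a ∉ F → eval p (D.M a) = 0) : p ∈ D.sys.Cone := by
  have h0 : ∀ A : Fin s → ℕ, (∃ a, a ∉ F ∧ A a ≠ 0) → eval p (∏ a, D.M a ^ A a) = 0 := by
    rintro A ⟨a, ha, hA⟩
    rw [map_prod]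
    refine Finset.prod_eq_zero (mem_univ a) ?_
    rw [map_pow, hp a ha, zero_pow hA]
  have h1 : D.I ≤ RingHom.ker (eval p) := by
    rw [I, Ideal.span_le]
    rintro _ ⟨A, B, hAB, rfl⟩
    refine RingHom.mem_ker.2 ?_
    rw [map_sub]
    by_cases hA : ∀ a, a ∉ F → A a = 0
    · rw [hF A B hA hAB, sub_self]
    · by_cases hB : ∀ a, a ∉ F → B a = 0
      · rw [hF B A hB (fun i => (hAB i).symm), sub_self]
      · push Not at hA hB
        rw [h0 A hA, h0 B hB, sub_self]
  exact fun a ha => RingHom.mem_ker.1 (h1 ha)

/-- the ideal contains no forms of degree one -/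
theorem eq_zero_of_mem {f : MvPolynomial (Fin N) k} (hf : IsWeightedHomogeneous D.w f 1)
    (hI : f ∈ D.I) : f = 0 := by
  classical
  refine Sys.eq_zero_of_sq ?_ hf hI
  rintro _ ⟨A, B, hAB, rfl⟩
  -- the degree of a monomial
  have hdeg : ∀ A : Fin s → ℕ, ((∑ a, A a * D.d a : ℕ) : ℤ) = ∑ i, D.ℓ i * ∑ a, (A a : ℤ) * D.u a i
      := by
    intro A
    push_cast
    simp only [D.d_eq, Finset.mul_sum]
    rw [Finset.sum_comm]
    refine Finset.sum_congr rfl fun i _ => Finset.sum_congr rfl fun a _ => ?_
    ring
  have hAB' : ∑ a, A a * D.d a = ∑ a, B a * D.d a := by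
    have h1 := hdeg A
    have h2 := hdeg B
    have h3 : ∑ i, D.ℓ i * ∑ a, (A a : ℤ) * D.u a i = ∑ i, D.ℓ i * ∑ a, (B a : ℤ) * D.u a i :=
      Finset.sum_congr rfl fun i _ => by rw [hAB i]
    rw [← h1, ← h2] at h3
    exact_mod_cast h3
  have hφ : ∀ A : Fin s → ℕ, (Polynomial.X : Polynomial (MvPolynomial (Fin N) k)) ^
      (∑ a, A a * D.d a) ∣ φ D.w (∏ a, D.M a ^ A a) := by
    intro A
    rw [map_prod, ← Finset.prod_pow_eq_pow_sum]
    refine Finset.prod_dvd_prod_of_dvd _ _ fun a _ => ?_
    rw [map_pow, φ_hom (D.homogeneous a), mul_pow, mul_comm (A a), ← pow_mul, mul_comm (D.d a)]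
    exact Dvd.intro_left _ rfl
  rcases le_or_gt 2 (∑ a, A a * D.d a) with h2 | h2
  · rw [map_sub]
    refine dvd_sub ((pow_dvd_pow _ h2).trans (hφ A)) ((pow_dvd_pow _ ?_).trans (hφ B))
    rw [← hAB']
    exact h2
  · -- degree at most one
    have h3 : A = B := by
      have hle : ∀ (A : Fin s → ℕ), ∑ a, A a * D.d a < 2 → A = 0 ∨ ∃ a, A = Pi.single a 1 := by
        intro A hA
        by_cases h0 : A = 0
        · exact Or.inl h0
        · right
          obtain ⟨a, ha⟩ := Function.ne_iff.1 h0
          refine ⟨a, ?_⟩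
          have ha0 : 0 < A a := Nat.pos_of_ne_zero ha
          have h1 : ∀ b, b ≠ a → A b = 0 := by
            intro b hb
            by_contra hb0
            have h2 : A a * D.d a + A b * D.d b ≤ ∑ a, A a * D.d a := by
              rw [← Finset.add_sum_erase _ _ (mem_univ a),
                ← Finset.add_sum_erase _ _ (Finset.mem_erase.2 ⟨hb, mem_univ b⟩)]
              omega
            have h3 : 1 ≤ A a * D.d a := Nat.mul_pos ha0 (D.d_pos a)
            have h4 : 1 ≤ A b * D.d b := Nat.mul_pos (Nat.pos_of_ne_zero hb0) (D.d_pos b)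
            omega
          have h2 : A a = 1 := by
            have h2 : A a * D.d a ≤ ∑ a, A a * D.d a :=
              Finset.single_le_sum (f := fun a => A a * D.d a) (fun _ _ => Nat.zero_le _)
                (mem_univ a)
            have h3 : A a * 1 ≤ A a * D.d a := Nat.mul_le_mul_left _ (D.d_pos a)
            omega
          funext b
          by_cases hb : b = a
          · subst hb
            rw [h2, Pi.single_eq_same]
          · rw [h1 b hb, Pi.single_eq_of_ne hb]
      have hsum : ∀ a : Fin s, ∑ b, (Pi.single a 1 : Fin s → ℕ) b * D.d b = D.d a := by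
        intro a
        rw [Finset.sum_eq_single a]
        · rw [Pi.single_eq_same, one_mul]
        · intro b _ hb
          rw [Pi.single_eq_of_ne hb, zero_mul]
        · intro h; exact absurd (mem_univ a) h
      rcases hle A h2 with rfl | ⟨a, rfl⟩
      · rcases hle B (by rw [← hAB']; exact h2) with rfl | ⟨b, rfl⟩
        · rfl
        · exfalso
          rw [hsum] at hAB'
          have := D.d_pos b
          simp at hAB'
          omega
      · rcases hle B (by rw [← hAB']; exact h2) with rfl | ⟨b, rfl⟩
        · exfalso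
          rw [hsum] at hAB'
          have := D.d_pos a
          simp at hAB'
          omega
        · have h4 : D.u a = D.u b := by
            funext i
            have h5 := hAB i
            have h6 : ∀ c : Fin s, ∑ b, (((Pi.single c 1 : Fin s → ℕ) b : ℕ) : ℤ) * D.u b i
                = D.u c i := by
              intro c
              rw [Finset.sum_eq_single c]
              · simp
              · intro b _ hb
                rw [Pi.single_eq_of_ne hb]
                simp
              · intro h; exact absurd (mem_univ c) h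
            rw [h6, h6] at h5
            exact h5
          rw [D.u_inj h4]
    rw [h3, sub_self, map_zero]
    exact dvd_zero _

end Datum

theorem result [IsAlgClosed k] [CharZero k] [Finite G] (D : Datum k G N s r) {m : ℕ}
    (hm : 0 < m) (F : Fin m → Finset (Fin s)) (u₀ : Fin r → ℤ) (hF : D.Balanced F u₀) {h : ℕ}
    (hh : 0 < h)
    -- no variable vanishes on the cone
    (hfull : ∀ i, ∃ p ∈ D.sys.Cone, p i ≠ 0)
    -- the ring of the `(R_{hm})^G` is a section ring
    (hS : D.sys.SectionRing h) :
    (∃ T : Finset (Fin N), ∑ i, (D.w i : ℤ) ≤ D.top u₀ + ∑ i ∈ T, (D.w i : ℤ) ∧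
      ∀ i ∈ T, D.w i ∣ h ∧ D.sys.Inv h (X i ^ (h / D.w i)) ∧
        ¬ IsNilpotent (Ideal.Quotient.mk D.I (X i ^ (h / D.w i)))) ∧
    (D.top u₀ < ∑ i, (D.w i : ℤ) → ∃ s ∈ D.sys.sections h, ¬ IsNilpotent s) ∧
    (h = 1 → ∑ i, (D.w i : ℤ) - D.top u₀ ≤ Module.finrank k (D.sys.sections 1)) := by
  classical
  refine D.sys.conclude hh hfull (fun f hf hI => D.eq_zero_of_mem hf hI) ?_
  have h1 := D.sys.not_good_le hS D.M D.d D.d_pos D.homogeneous D.χ D.semi hm F
    (fun j p hp => D.mem_cone (hF.1 j) hp) (top := D.top u₀) (by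
      have h2 : ∀ j : Fin m, ∑ a ∈ (F j)ᶜ, (D.d a : ℤ) =
          ∑ i, D.ℓ i * (∑ a, D.u a i - ∑ a ∈ F j, D.u a i) := by
        intro j
        have h3 : ∀ i, ∑ a, D.u a i - ∑ a ∈ F j, D.u a i = ∑ a ∈ (F j)ᶜ, D.u a i := by
          intro i
          rw [← Finset.sum_compl_add_sum (F j)]
          ring
        simp only [h3, D.d_eq, Finset.mul_sum]
        rw [Finset.sum_comm]
      simp only [h2]
      rw [Finset.sum_comm]
      unfold Datum.top
      rw [Finset.mul_sum]
      refine Finset.sum_congr rfl fun i _ => ?_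
      rw [← Finset.mul_sum, Finset.sum_sub_distrib, hF.2 i]
      simp
      ring)
  convert h1

end Pool.Agent.Results.MP_954e53_ag.ToricFormats
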